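import Mathlib
import Pool.Agent.Helper86.AP.Goals

/-! Project AP (MP_bec853_al), packet COMB: the two sides together. -/

set_option autoImplicit false

namespace Pool.Agent.Helper54.AP

open Pool.Agent.Helper35.PP Pool.Agent.Helper35.PX Pool.Agent.Helper86.AP

section

variable {β : Type}

/-- The letters of `a` at the positions `x ≤ h < y`. -/
def sl (a : List β) (x y : ℕ) : List β := (a.take y).drop x

theorem sl_zero (a : List β) (y : ℕ) : sl a 0 y = a.take y := List.drop_zero

theorem sl_nil (a : List β) {x y : ℕ} (h : y ≤ x) : sl a x y = [] := by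
  unfold sl
  apply List.drop_eq_nil_of_le
  exact (List.length_take_le y a).trans h

theorem sl_app (a : List β) {x y z : ℕ} (hxy : x ≤ y) (hyz : y ≤ z) (hy : y ≤ a.length) :
    sl a x y ++ sl a y z = sl a x z := by
  unfold sl
  have h1 : a.take z = a.take y ++ (a.take z).drop y := by
    conv_lhs => rw [← List.take_append_drop y (a.take z)]
    rw [List.take_take, min_eq_left hyz]
  conv_rhs => rw [h1]
  rw [List.drop_append_of_le_length]
  rw [List.length_take, min_eq_left hy]
  exact hxy

theorem sl_get (a : List β) (x y i : ℕ) : (sl a x y)[i]? = if x + i < y then a[x + i]? else none := by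
  unfold sl
  rw [List.getElem?_drop, List.getElem?_take]

theorem sl_eq (a d : List β) {x y x' y' : ℕ} (hl : y + x' = y' + x)
    (h : ∀ i, x + i < y → a[x + i]? = d[x' + i]?) : sl a x y = sl d x' y' := by
  apply List.ext_getElem?
  intro i
  rw [sl_get, sl_get]
  by_cases hi : x + i < y
  · rw [if_pos hi, if_pos (by omega), h i hi]
  · rw [if_neg hi, if_neg (by omega)]

/-- A translated slice. -/
theorem sl_infix (a d : List β) {x y X Y : ℕ} (O : ℤ) (hY : Y ≤ d.length)
    (h : x < y → (X : ℤ) ≤ x + O ∧ (y : ℤ) + O ≤ Y ∧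
      ∀ h : ℕ, x ≤ h → h < y → a[h]? = d[((h : ℤ) + O).toNat]?) : sl a x y <:+: sl d X Y := by
  rcases Nat.lt_or_ge x y with hxy | hxy
  · obtain ⟨h1, h2, h3⟩ := h hxy
    obtain ⟨x', hx'⟩ : ∃ x' : ℕ, (x' : ℤ) = x + O := ⟨((x : ℤ) + O).toNat, by omega⟩
    obtain ⟨y', hy'⟩ : ∃ y' : ℕ, (y' : ℤ) = y + O := ⟨((y : ℤ) + O).toNat, by omega⟩
    have e1 : sl a x y = sl d x' y' := by
      apply sl_eq a d (by omega)
      intro i hi
      rw [h3 (x + i) (by omega) hi]
      congr 1
      omega
    rw [e1]
    refine ⟨sl d X x', sl d y' Y, ?_⟩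
    rw [sl_app d (by omega) (by omega) (by omega), sl_app d (by omega) (by omega) (by omega)]
  · rw [sl_nil a hxy]
    exact List.nil_infix

end

theorem tCOMB : S_COMB := by
  intro β M a d l2 E l1 m2 F m1 _ hE1 hE2 hE3 hF1 hF2 hF3 ht ht' H
  have eA : a.take l1 = a.take l2 ++ sl a l2 E ++ (a.take l1).drop E := by
    show _ = _ ++ _ ++ sl a E l1
    rw [← sl_zero a l2, ← sl_zero a l1, sl_app a (by omega) (by omega) (by omega),
      sl_app a (by omega) (by omega) (by omega)]
  have eD : d.take m1 = d.take m2 ++ sl d m2 F ++ (d.take m1).drop F := by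
    show _ = _ ++ _ ++ sl d F m1
    rw [← sl_zero d m2, ← sl_zero d m1, sl_app d (by omega) (by omega) (by omega),
      sl_app d (by omega) (by omega) (by omega)]
  rcases H with ⟨h1, h2⟩ | ⟨O, h1, h2⟩
  · refine ⟨[], sl a l2 E, [], sl d m2 F, [], (a.take l1).drop E, (d.take m1).drop F, ?_, ?_, ht,
      ht', List.nil_infix, ?_, List.nil_infix, ?_⟩
    · rw [List.append_nil, List.append_nil]
      exact eA
    · rw [List.append_nil, List.append_nil]
      exact eD
    · rcases h1 with rfl | h1
      · rw [sl_nil a (le_refl _)]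
        exact List.nil_infix
      · exact h1
    · rcases h2 with rfl | h2
      · rw [sl_nil d (le_refl _)]
        exact List.nil_infix
      · exact h2
  · obtain ⟨u, hu⟩ : ∃ u : ℕ, (u : ℤ) = max (l2 : ℤ) (min E (m2 - O)) :=
      ⟨(max (l2 : ℤ) (min E (m2 - O))).toNat, by omega⟩
    obtain ⟨v, hv⟩ : ∃ v : ℕ, (v : ℤ) = max (l2 : ℤ) (min E (F - O)) :=
      ⟨(max (l2 : ℤ) (min E (F - O))).toNat, by omega⟩
    obtain ⟨u', hu'⟩ : ∃ u' : ℕ, (u' : ℤ) = max (m2 : ℤ) (min F (l2 + O)) :=
      ⟨(max (m2 : ℤ) (min F (l2 + O))).toNat, by omega⟩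
    obtain ⟨v', hv'⟩ : ∃ v' : ℕ, (v' : ℤ) = max (m2 : ℤ) (min F (E + O)) :=
      ⟨(max (m2 : ℤ) (min F (E + O))).toNat, by omega⟩
    have ec : sl a u v = sl d u' v' := by
      rcases Nat.lt_or_ge u v with huv | huv
      · have h3 : (u' : ℤ) = u + O := by omega
        have h4 : (v' : ℤ) = v + O := by omega
        rcases h1 with h1 | ⟨h1, h5⟩
        · omega
        apply sl_eq a d (by omega)
        intro i hi
        rw [(h5 (u + i) (by omega) (by omega)).2]
        congr 1
        omega
      · rw [sl_nil a huv, sl_nil d (by omega)]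
    have ea : sl a l2 E = sl a l2 u ++ sl a u v ++ sl a v E := by
      rw [sl_app a (by omega) (by omega) (by omega), sl_app a (by omega) (by omega) (by omega)]
    have ed : sl d m2 F = sl d m2 u' ++ sl a u v ++ sl d v' F := by
      rw [ec, sl_app d (by omega) (by omega) (by omega),
        sl_app d (by omega) (by omega) (by omega)]
    refine ⟨sl a v E, sl a l2 u, sl d v' F, sl d m2 u', sl a u v, (a.take l1).drop E,
      (d.take m1).drop F, ?_, ?_, ht, ht', ?_, ?_, ?_, ?_⟩
    · rw [← ea]
      exact eA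
    · rw [← ed]
      exact eD
    · -- f1
      show _ <:+: sl d F m1
      apply sl_infix a d O (by omega)
      intro h
      rcases h1 with h1 | ⟨h1, h5⟩
      · omega
      · exact ⟨by omega, by omega, fun k hk hk' => (h5 k (by omega) (by omega)).2⟩
    · -- f2
      rw [← sl_zero d m2]
      apply sl_infix a d O (by omega)
      intro h
      rcases h1 with h1 | ⟨h1, h5⟩
      · omega
      · have h6 := (h5 l2 (by omega) (by omega)).1
        exact ⟨by omega, by omega, fun k hk hk' => (h5 k (by omega) (by omega)).2⟩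
    · -- f3
      show _ <:+: sl a E l1
      apply sl_infix d a (-O) (by omega)
      intro h
      rcases h2 with h2 | ⟨h2, h5⟩
      · omega
      · exact ⟨by omega, by omega, fun k hk hk' => (h5 k (by omega) (by omega)).2⟩
    · -- f4
      rw [← sl_zero a l2]
      apply sl_infix d a (-O) (by omega)
      intro h
      rcases h2 with h2 | ⟨h2, h5⟩
      · omega
      · have h6 := (h5 m2 (by omega) (by omega)).1
        exact ⟨by omega, by omega, fun k hk hk' => (h5 k (by omega) (by omega)).2⟩

end Pool.Agent.Helper54.AP
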